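import Pool.Agent.L7h31.IE.Fin2
import Pool.Agent.L7h29.IE.Alive
import Pool.Agent.L7h29.IE.Edge
import Pool.Agent.L7h29.IE.Gen
import Pool.Agent.L7h29.IE.Star
import Pool.Agent.L7h49.IE.Bas
import Pool.Agent.L7h49.IE.Col
import Pool.Agent.L7h49.IE.Cone
import Pool.Agent.L7h49.IE.Cone3
import Pool.Agent.L7h49.IE.Ridge
import Pool.Agent.L7h49.IE.Sec
import Pool.Agent.L7h23.IE.Count
import Pool.Agent.L7h23.IE.Ex
import Pool.Agent.L7h47.IE.Mom
import Pool.Agent.L7h47.IE.Stack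

set_option autoImplicit false

namespace Pool.Agent.L7h31.IE

open Pool.Agent.L7h29.IE Pool.Agent.L7h49.IE Pool.Agent.L7h23.IE Pool.Agent.L7h47.IE in
theorem fin : S_FINAL :=
  s_FINAL (s_EX s_SIMP s_GEN s_STACK s_MOM)
    (s_COUNT (s_ALIVE s_STAR s_RIDGE) s_LIN (s_CONE (s_CONE3 s_SEC s_COL) s_BAS)) s_EDGE

end Pool.Agent.L7h31.IE
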