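import Pool.Agent.L7h31.IE.Trans

set_option autoImplicit false

namespace Pool.Agent.L7h31.IE

theorem s_FINAL (hEX : S_EX) (hCOUNT : S_COUNT) (hEDGE : S_EDGE) : S_FINAL := by
  classical
  obtain ⟨K, hK⟩ := hCOUNT
  intro p hp
  refine ⟨(2 + K) * 2 ^ (p - 1) * (p.factorial : ℝ), by positivity, ?_⟩
  intro N
  obtain ⟨k, hk⟩ : ∃ k : ℕ, k = N + 2 * p := ⟨_, rfl⟩
  obtain ⟨V, x, t, hV, hC, hcard⟩ := hEX p k hp (by omega)
  refine ⟨V, hV, by omega, ?_⟩
  intro W f hR c r hr T hTW hT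
  have hCW := s_TRANS _ p k V W f x t hR hC
  -- the alive sets
  obtain ⟨𝒜, h𝒜⟩ : ∃ 𝒜 : Finset (Finset (Fin k)), 𝒜 =
      (Finset.powersetCard p Finset.univ).filter (fun I => f (t I) ∈ T) := ⟨_, rfl⟩
  have h1 : 𝒜.card ≤ K * k.choose (p - 1) := by
    apply hK p k W (fun a => f (x a)) (fun I => f (t I)) c r 𝒜 hp hCW hr
    intro I hI
    rw [h𝒜, Finset.mem_filter, Finset.mem_powersetCard] at hI
    obtain ⟨⟨_, hIp⟩, hIT⟩ := hI
    refine ⟨hIp, (hT _ hIT).1, ?_⟩
    intro a ha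
    exact (hT _ hIT).2 _ (hCW.xmem a) (hEDGE _ p k W _ _ hp hCW I hIp a ha)
  have h2 : T.card ≤ 2 * k + 𝒜.card := by
    have hsub : T ⊆ (Finset.univ.image (fun a : Fin k × Bool => f (x a))) ∪
        (𝒜.image (fun I => f (t I))) := by
      intro y hy
      rw [Finset.mem_union, Finset.mem_image, Finset.mem_image]
      rcases hCW.all y (hTW hy) with ⟨a, rfl⟩ | ⟨I, hI, rfl⟩
      · exact Or.inl ⟨a, Finset.mem_univ _, rfl⟩
      · refine Or.inr ⟨I, ?_, rfl⟩
        rw [h𝒜, Finset.mem_filter, Finset.mem_powersetCard]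
        exact ⟨⟨Finset.subset_univ _, hI⟩, hy⟩
    calc T.card ≤ _ := Finset.card_le_card hsub
      _ ≤ _ := Finset.card_union_le _ _
      _ ≤ _ := by
        gcongr
        · refine Finset.card_image_le.trans ?_
          rw [Finset.card_univ, Fintype.card_prod, Fintype.card_fin, Fintype.card_bool]
          omega
        · exact Finset.card_image_le
  -- numbers
  have hp1 : (0 : ℝ) < p := by positivity
  have hkpos : (1 : ℝ) ≤ k := by
    have : 1 ≤ k := by omega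
    exact_mod_cast this
  have h3 : (T.card : ℝ) ≤ (2 + K) * (k : ℝ) ^ (p - 1) := by
    have h4 : (k.choose (p - 1) : ℝ) ≤ (k : ℝ) ^ (p - 1) := by
      exact_mod_cast Nat.choose_le_pow k (p - 1)
    have h5 : (k : ℝ) ≤ (k : ℝ) ^ (p - 1) := by
      calc (k : ℝ) = (k : ℝ) ^ 1 := (pow_one _).symm
        _ ≤ _ := pow_le_pow_right₀ hkpos (by omega)
    have h6 : (T.card : ℝ) ≤ 2 * k + K * k.choose (p - 1) := by
      exact_mod_cast h2.trans (by omega)
    have h7 : (K : ℝ) * k.choose (p - 1) ≤ K * (k : ℝ) ^ (p - 1) := by gcongr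
    linarith
  have h8 : ((k : ℝ) / 2) ^ p ≤ (p.factorial : ℝ) * V.card := by
    have h9 : (((k + 1 - p : ℕ) ^ p : ℕ) : ℝ) ≤ (p.factorial : ℝ) * k.choose p := by
      have := Nat.pow_sub_le_descFactorial k p
      rw [Nat.descFactorial_eq_factorial_mul_choose] at this
      exact_mod_cast this
    have h10 : (k : ℝ) / 2 ≤ ((k + 1 - p : ℕ) : ℝ) := by
      have h11 : k ≤ 2 * (k + 1 - p) := by omega
      have h12 : (k : ℝ) ≤ 2 * ((k + 1 - p : ℕ) : ℝ) := by exact_mod_cast h11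
      linarith
    have h13 : (k.choose p : ℝ) ≤ V.card := by
      rw [hcard]; push_cast; linarith
    calc ((k : ℝ) / 2) ^ p ≤ ((k + 1 - p : ℕ) : ℝ) ^ p := by gcongr
      _ ≤ (p.factorial : ℝ) * k.choose p := by exact_mod_cast h9
      _ ≤ _ := by gcongr
  have hexp : (0 : ℝ) ≤ 1 - 1 / (p : ℝ) := by
    have : 1 / (p : ℝ) ≤ 1 := by
      rw [div_le_one hp1]
      have : (2 : ℝ) ≤ p := by exact_mod_cast hp
      linarith
    linarith
  have h14 : ((k : ℝ) / 2) ^ (p - 1) ≤ (p.factorial : ℝ) * (V.card : ℝ) ^ (1 - 1 / (p : ℝ)) := by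
    have h15 := Real.rpow_le_rpow (by positivity) h8 hexp
    rw [← Real.rpow_natCast, ← Real.rpow_mul (by positivity),
      Real.mul_rpow (by positivity) (by positivity)] at h15
    have h16 : (p : ℝ) * (1 - 1 / (p : ℝ)) = ((p - 1 : ℕ) : ℝ) := by
      rw [Nat.cast_sub (by omega)]
      field_simp
      push_cast
      ring
    rw [h16, Real.rpow_natCast] at h15
    refine h15.trans ?_
    gcongr
    calc (p.factorial : ℝ) ^ (1 - 1 / (p : ℝ)) ≤ (p.factorial : ℝ) ^ (1 : ℝ) := by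
          apply Real.rpow_le_rpow_of_exponent_le
          · exact_mod_cast Nat.succ_le_of_lt (Nat.factorial_pos p)
          · have : 0 ≤ 1 / (p : ℝ) := by positivity
            linarith
      _ = _ := Real.rpow_one _
  calc (T.card : ℝ) ≤ (2 + K) * (k : ℝ) ^ (p - 1) := h3
    _ = (2 + K) * 2 ^ (p - 1) * ((k : ℝ) / 2) ^ (p - 1) := by
      rw [div_pow]
      field_simp
    _ ≤ (2 + K) * 2 ^ (p - 1) * ((p.factorial : ℝ) * (V.card : ℝ) ^ (1 - 1 / (p : ℝ))) := by
      gcongr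
    _ = _ := by ring

end Pool.Agent.L7h31.IE
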