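import Pool.Agent.L7h31.IE.Fin

set_option autoImplicit false

namespace Pool.Agent.L7h31.IE

/-- the exponent form -/
theorem expo (h : S_FINAL) (p : ℕ) (hp : 2 ≤ p) :
    ∃ ε : ℝ, 0 < ε ∧ ∀ N : ℕ, ∃ V : Finset (E (2 * p)), Simplicial V ∧ N ≤ V.card ∧
      ∀ (W : Finset (E (2 * p))) (f : E (2 * p) → E (2 * p)), Realizes V W f →
        ∀ (c : E (2 * p)) (r : ℝ), 0 < r → (∀ w ∈ W, dist w c ≤ r) →
          ∀ T : Finset (E (2 * p)), T ⊆ W → (∀ w ∈ T, w ∈ Metric.sphere c r) →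
            (T.card : ℝ) < (V.card : ℝ) ^
              (Real.log (((2 * p : ℕ) : ℝ) - 1) / Real.log ((2 * p : ℕ) : ℝ) - ε) := by
  obtain ⟨C, hC, hN⟩ := h p hp
  have hlog := s_LOG p hp
  obtain ⟨κ, hκ⟩ : ∃ κ : ℝ, κ = Real.log (((2 * p : ℕ) : ℝ) - 1) / Real.log ((2 * p : ℕ) : ℝ) :=
    ⟨_, rfl⟩
  rw [← hκ] at hlog ⊢
  obtain ⟨ε, hε⟩ : ∃ ε : ℝ, ε = (κ - (1 - 1 / (p : ℝ))) / 2 := ⟨_, rfl⟩
  have hε0 : 0 < ε := by rw [hε]; linarith
  refine ⟨ε, hε0, ?_⟩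
  intro N
  obtain ⟨M, hM⟩ := exists_nat_gt ((C + 1) ^ (1 / ε))
  obtain ⟨V, hV, hcard, hreal⟩ := hN (max N (max M 1))
  refine ⟨V, hV, le_trans (le_max_left _ _) hcard, ?_⟩
  intro W f hR c r hr hW T hTW hT
  have h1 : (1 : ℝ) ≤ V.card := by
    have : 1 ≤ V.card := le_trans (le_trans (le_max_right _ _) (le_max_right _ _)) hcard
    exact_mod_cast this
  have h2 : (M : ℝ) ≤ V.card := by
    have : M ≤ V.card := le_trans (le_trans (le_max_left _ _) (le_max_right _ _)) hcard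
    exact_mod_cast this
  have h3 := hreal W f hR c r hr T hTW
    (fun w hw => ⟨Metric.mem_sphere.1 (hT w hw), fun u hu _ => hW u hu⟩)
  have h4 : C < (V.card : ℝ) ^ ε := by
    have h5 : (C + 1) ^ (1 / ε) < (V.card : ℝ) := lt_of_lt_of_le hM h2
    have h6 := Real.rpow_lt_rpow (by positivity) h5 hε0
    rw [← Real.rpow_mul (by positivity)] at h6
    have h7 : 1 / ε * ε = 1 := by field_simp
    rw [h7, Real.rpow_one] at h6
    linarith
  have h8 : κ - ε = ε + (1 - 1 / (p : ℝ)) := by rw [hε]; ring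
  rw [h8, Real.rpow_add (by linarith)]
  refine lt_of_le_of_lt h3 ?_
  have h9 : 0 < (V.card : ℝ) ^ (1 - 1 / (p : ℝ)) := by positivity
  exact mul_lt_mul_of_pos_right h4 h9

end Pool.Agent.L7h31.IE
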