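import Mathlib

/-!
# Project IE (MP_1f68be_co): inscribability exponents (Grünbaum, Jucovič)

THEOREM. Let `d = 2 p ≥ 4`. There are simplicial `d`-polytopes `P` with arbitrarily many vertices
`n` such that in every realization `P'` of `P` and for every sphere `S` at most
`C n^(1 - 1/p)` vertices of `P'` lie on `S` and have all their neighbours in the closed ball
bounded by `S`.  In particular every realization inside a ball has at most `C n^(1 - 1/p)` vertices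
on its boundary, and `1 - 1/p < log (d-1) / log d`.

PROOF.  `P`: take the cyclic polytope with the vertices `x (j, b) = γ (2 j + b)`, `j < k`,
`b = 0, 1`, `γ` the moment curve in `ℝ^(2p)`, and place a pyramid with apex `t I` on the facet
`F_I = {x (j, b) : j ∈ I}` for all sets `I` of `p` indices (general position).  `n = 2 k + C(k,p)`.

Let `P'` be a realization, `S` the unit sphere (after a similarity), `L` the Lorentz form, and
identify affine functionals with Lorentz vectors. If `t = t I` is on `S` and `F_I` in the ball, let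
`A` be the normed vector of the hyperplane of `F_I` and `B_v` those of the facets
`(F_I \ {v}) ∪ {t}`, `v ∈ F_I`.  Then `L(A, B_v) ≤ 1 / (d - 1)` for some `v` (part RIDGE). The ridge
`F_I \ {v}` contains `g_J = {x (j, b) : j ∈ J}` with `|J| = p - 1` and one more vertex.  If there
were more than `K` such `I` for the same `J`, we look at the three dimensional positive definite
space orthogonal to `g_J`: the extra vertices give more than `K` rays of a convex cone in `ℝ^3`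
at which the cone has angle at most `π - arccos (1/3)`, impossible (part CONE3).
-/

set_option autoImplicit false

namespace Pool.Agent.L7h31.IE

open scoped InnerProductSpace

/-- Euclidean space -/
abbrev E (d : ℕ) := EuclideanSpace ℝ (Fin d)

/-- `A` is the set of the points of `V` on a supporting hyperplane (for `l = 0`: `A = V`) -/
def IsFace {d : ℕ} (V : Finset (E d)) (A : Set (E d)) : Prop :=
  ∃ l : E d →L[ℝ] ℝ, ∀ x, x ∈ A ↔ (x ∈ V ∧ ∀ w ∈ V, l w ≤ l x)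

/-- `V` is the vertex set of a simplicial `d`-polytope -/
structure Simplicial {d : ℕ} (V : Finset (E d)) : Prop where
  span : affineSpan ℝ (V : Set (E d)) = ⊤
  vert : ∀ v ∈ V, v ∉ convexHull ℝ ((V : Set (E d)) \ {v})
  simp : ∀ A : Set (E d), IsFace V A → A ≠ (V : Set (E d)) →
    AffineIndependent ℝ (Subtype.val : A → E d)

/-- `f` is an isomorphism of the polytope with vertex set `V` onto that with vertex set `W` -/
structure Realizes {d : ℕ} (V W : Finset (E d)) (f : E d → E d) : Prop where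
  span : affineSpan ℝ (W : Set (E d)) = ⊤
  vert : ∀ v ∈ W, v ∉ convexHull ℝ ((W : Set (E d)) \ {v})
  bij : Set.BijOn f (V : Set (E d)) (W : Set (E d))
  face : ∀ A : Set (E d), A ⊆ (V : Set (E d)) → (IsFace V A ↔ IsFace W (f '' A))

/-- the configuration: vertices `x (j, b)` (`j < k`, `b` Boolean) of the polytope with vertex set
`W` and for every set `I` of `p` indices a vertex `t I` such that the sets
`(F_I \ {v}) ∪ {t I}`, `v ∈ F_I = {x (j, b) : j ∈ I}`, are faces -/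
structure Conf {d : ℕ} (p k : ℕ) (W : Finset (E d)) (x : Fin k × Bool → E d)
    (t : Finset (Fin k) → E d) : Prop where
  vert : ∀ v ∈ W, v ∉ convexHull ℝ ((W : Set (E d)) \ {v})
  xmem : ∀ a, x a ∈ W
  tmem : ∀ I : Finset (Fin k), I.card = p → t I ∈ W
  xinj : Function.Injective x
  txne : ∀ I : Finset (Fin k), I.card = p → ∀ a, t I ≠ x a
  tinj : ∀ I J : Finset (Fin k), I.card = p → J.card = p → t I = t J → I = J
  all : ∀ v ∈ W, (∃ a, v = x a) ∨ ∃ I : Finset (Fin k), I.card = p ∧ v = t I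
  face : ∀ I : Finset (Fin k), I.card = p → ∀ a : Fin k × Bool, a.1 ∈ I →
    IsFace W (insert (t I) {y | ∃ c : Fin k × Bool, c.1 ∈ I ∧ c ≠ a ∧ y = x c})

/-! ### the final statement -/

/-- the final theorem -/
def S_FINAL : Prop :=
  ∀ p : ℕ, 2 ≤ p → ∃ C : ℝ, 0 < C ∧ ∀ N : ℕ, ∃ V : Finset (E (2 * p)),
    Simplicial V ∧ N ≤ V.card ∧
    ∀ (W : Finset (E (2 * p))) (f : E (2 * p) → E (2 * p)), Realizes V W f →
      ∀ (c : E (2 * p)) (r : ℝ), 0 < r → ∀ T : Finset (E (2 * p)), T ⊆ W →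
        (∀ w ∈ T, dist w c = r ∧ ∀ u ∈ W, IsFace W {u, w} → dist u c ≤ r) →
        (T.card : ℝ) ≤ C * (V.card : ℝ) ^ (1 - 1 / (p : ℝ))

/-- `log (2p) - log (2p-1) ≤ 1/(2p-1) ≤ 2/(3p)` (as `log x ≤ x - 1`) and `log (2p) ≥ log 4 > 1`. -/
def S_LOG : Prop := ∀ p : ℕ, 2 ≤ p →
  1 - 1 / (p : ℝ) < Real.log (((2 * p : ℕ) : ℝ) - 1) / Real.log ((2 * p : ℕ) : ℝ)

/-! ### Lorentz space -/

/-- the Lorentz form on `ℝ^d × ℝ` -/
noncomputable def L {d : ℕ} (A B : E d × ℝ) : ℝ := ⟪A.1, B.1⟫_ℝ - A.2 * B.2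

/-- the Lorentz vector of the point `y`, for the ball with centre `c` and radius `r`. It satisfies
`L (lift y) (lift y) = (|y - c|^2 - r^2) / r^2` -/
noncomputable def lift {d : ℕ} (c : E d) (r : ℝ) (y : E d) : E d × ℝ := (r⁻¹ • (y - c), 1)

/-- [SEC] 30 lines. In the plane orthogonal to `e`: with `c = ⟪a,b⟫`, `-1 < c ≤ 1/3` (`c = -1` would
give `b = -a`, against `⟪a,y⟫ ≤ 0`, `⟪b,y⟫ < 0`). Put `y₁ = (c a - b)/√(1-c²)`,
`y₂ = (c b - a)/√(1-c²)`: unit vectors, `⟪a,y₁⟫ = 0`, `⟪b,y₁⟫ < 0`, `⟪b,y₂⟫ = 0`, `⟪a,y₂⟫ < 0`,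
`⟪y₁,y₂⟫ = -c`.  `y = α y₁ + β y₂`, `z = α' y₁ + β' y₂` with `α, β, α', β' ≥ 0`, and
`⟪y,z⟫ = αα' + ββ' - c (αβ' + α'β)`.  If `c ≤ 0` this is `≥ 0`. Otherwise
`|y|² = α² + β² - 2cαβ ≥ (2/3)(α² + β²)`, the same for `z`, so
`αβ' + α'β ≤ √(α²+β²) √(α'²+β'²) ≤ (3/2) |y| |z|`. (Here one uses that the space orthogonal to `e`
is two dimensional, e.g. via coordinates or cross products.) -/
def S_SEC : Prop := ∀ e a b y z : E 3, ‖e‖ = 1 → ‖a‖ = 1 → ‖b‖ = 1 →
  ⟪a, e⟫_ℝ = 0 → ⟪b, e⟫_ℝ = 0 → ⟪y, e⟫_ℝ = 0 → ⟪z, e⟫_ℝ = 0 → ⟪a, b⟫_ℝ ≤ 1 / 3 →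
  ⟪a, y⟫_ℝ ≤ 0 → ⟪b, y⟫_ℝ < 0 → ⟪a, z⟫_ℝ ≤ 0 → ⟪b, z⟫_ℝ ≤ 0 →
  -(1 / 2) * (‖y‖ * ‖z‖) ≤ ⟪y, z⟫_ℝ

/-- [COL] 50 lines. Cover the unit sphere of `ℝ^3` by `m` balls of radius `1/2` (compactness) and
colour the pair `i < j` by a ball containing the unit vector `w i j = (e j - e i)/|e j - e i|`.
Let `s j` be the set of the colours of the pairs `(j, k)`, `k > j`. If `n > 2^m` then `s i = s j`
for some `i < j`, the colour of `(i, j)` is in `s i = s j`, so it is the colour of some `(j, k)`,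
`k > j`, hence `|w i j - w j k| < 1` and `⟪w i j, w j k⟫ = 1 - |w i j - w j k|²/2 > 1/2`. -/
def S_COL : Prop := ∃ K : ℕ, ∀ (n : ℕ) (e : Fin n → E 3), Function.Injective e → K < n →
  ∃ i j k : Fin n, i < j ∧ j < k ∧
    (1 / 2) * (‖e j - e i‖ * ‖e k - e j‖) < ⟪e j - e i, e k - e j⟫_ℝ

/-- [CONE3] 60 lines, from `S_SEC`, `S_COL`. For `n ≥ 2` all `x i ≠ 0` (as `⟪b j, x i⟫ < 0` for
`j ≠ i`). `e i = x i / |x i|` is injective (`⟪b i, e j⟫ < 0 = ⟪b i, e i⟫`). If `n > K`, take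
`i < j < k` from `S_COL` and put `y' = e i - e j`, `z' = e k - e j`,
`⟪y', z'⟫ < -(1/2) |y'| |z'|`; `y = y' - ⟪y', e j⟫ e j`, `z = z' - ⟪z', e j⟫ e j`.
`⟪y', e j⟫ = ⟪e i, e j⟫ - 1 ≤ 0` and `⟪z', e j⟫ ≤ 0`, so
`⟪y, z⟫ = ⟪y', z'⟫ - ⟪y', e j⟫ ⟪z', e j⟫ ≤ ⟪y', z'⟫ < -(1/2) |y'| |z'| ≤ -(1/2) |y| |z|`.
`⟪a j, y⟫ = ⟪a j, e i⟫ ≤ 0`, `⟪b j, y⟫ = ⟪b j, e i⟫ < 0`, the same for `z`: contradiction to
`S_SEC` with `e = e j`, `a = a j`, `b = b j`. -/
def S_CONE3 : Prop := ∃ K : ℕ, ∀ (n : ℕ) (a b x : Fin n → E 3),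
  (∀ i, ‖a i‖ = 1) → (∀ i, ‖b i‖ = 1) → (∀ i, ⟪a i, b i⟫_ℝ ≤ 1 / 3) →
  (∀ i, ⟪a i, x i⟫_ℝ = 0) → (∀ i, ⟪b i, x i⟫_ℝ = 0) →
  (∀ i j, j ≠ i → ⟪a i, x j⟫_ℝ ≤ 0) → (∀ i j, j ≠ i → ⟪b i, x j⟫_ℝ < 0) → n ≤ K

/-- [BAS] 80 lines. The vectors orthogonal (for `L`) to the `d - 2` linearly independent vectors
`g k` form a space `H` of dimension `(d + 1) - (d - 2) = 3` (`L` is nondegenerate). It is
orthogonal to the timelike vector `Z`, so `L` is positive definite on it: if `L Z Z < 0` and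
`L A Z = 0` then `⟪A.1, Z.1⟫ = A.2 Z.2`, `|Z.1| < |Z.2|`, so `|A.2| |Z.2| ≤ |A.1| |Z.1|`,
`|A.2| ≤ |A.1| |Z.1| / |Z.2|`, hence `L A A > 0` unless `A = 0`. Take an orthonormal basis of `H`
for `L` (e.g. `InnerProductSpace.Core` on `H`, or
`LinearMap.BilinForm.exists_orthogonal_basis` and normalisation). -/
def S_BAS : Prop := ∀ (d : ℕ) (ι : Type) [Fintype ι] (g : ι → E d × ℝ) (Z : E d × ℝ),
  Fintype.card ι + 2 = d → LinearIndependent ℝ g → Z ∈ Submodule.span ℝ (Set.range g) →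
  L Z Z < 0 →
  ∃ e : Fin 3 → E d × ℝ, (∀ m m', L (e m) (e m') = if m = m' then 1 else 0) ∧
    (∀ m k, L (e m) (g k) = 0) ∧
    ∀ A : E d × ℝ, (∀ k, L A (g k) = 0) → A = ∑ m, L A (e m) • e m

/-- [CONE] 40 lines, from `S_CONE3` and `S_BAS`: use the coordinates
`a i = (L (A i) (e m))_m`, `b i = (L (B i) (e m))_m`, `x i = (L (X i) (e m))_m`. As
`A i = ∑ m, L (A i) (e m) • e m`, we have `L (A i) Y = ∑ m, L (A i) (e m) * L (e m) Y` for all
`Y`. -/
def S_CONE : Prop := ∃ K : ℕ, ∀ (d : ℕ) (ι : Type) [Fintype ι] (g : ι → E d × ℝ)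
  (Z : E d × ℝ), Fintype.card ι + 2 = d → LinearIndependent ℝ g →
  Z ∈ Submodule.span ℝ (Set.range g) → L Z Z < 0 →
  ∀ (n : ℕ) (A B X : Fin n → E d × ℝ),
  (∀ i k, L (A i) (g k) = 0) → (∀ i k, L (B i) (g k) = 0) →
  (∀ i, L (A i) (A i) = 1) → (∀ i, L (B i) (B i) = 1) → (∀ i, L (A i) (B i) ≤ 1 / 3) →
  (∀ i, L (A i) (X i) = 0) → (∀ i, L (B i) (X i) = 0) →
  (∀ i j, j ≠ i → L (A i) (X j) ≤ 0) → (∀ i j, j ≠ i → L (B i) (X j) < 0) → n ≤ K

/-- [RIDGE] 80 lines. `μ i = L T (V i) / L (B i) (V i) > 0`. `D = T - ∑ i, μ i • B i` is orthogonal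
to all `V i` and to `T`, so `T = ∑ i, μ i • B i`. Put `τ = L A T > 0`, `c i = L A (B i)`:
`τ = ∑ i, μ i c i`. CLAIM `τ ≤ μ j (1 + c j)` for all `j`. Proof: `A' = A - (τ / s) • V j` with
`s = L T (V j) < 0` satisfies `L A' T = 0` and `L A' A' = 1 + (τ/s)² L (V j) (V j) ≤ 1` (as
`L A (V j) = 0`).  `L` is positive semidefinite on the space orthogonal to `T` (if `L D T = 0` then
`D.2 = ⟪D.1, T.1⟫`, `‖T.1‖ = 1`), so by Cauchy-Schwarz
`1 ≥ |L A' (B j)| = |c j - (τ/s) L (B j) (V j)| = |c j - τ / μ j|`, hence `τ / μ j ≤ 1 + c j`.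
Sum over `j`: `d τ ≤ ∑ μ j + τ`, where `d = card ι`, so `∑ μ j c j = τ ≤ (∑ μ j) / (d - 1)` and
some `c j ≤ 1 / (d - 1) ≤ 1/3`. -/
def S_RIDGE : Prop := ∀ (d : ℕ) (ι : Type) [Fintype ι] (V B : ι → E d × ℝ) (T A : E d × ℝ),
  4 ≤ Fintype.card ι → ‖T.1‖ = 1 → T.2 = 1 → L A A = 1 → (∀ i, L (B i) (B i) = 1) →
  (∀ i, L (V i) (V i) ≤ 0) → (∀ i, L T (V i) < 0) → (∀ i, L A (V i) = 0) → 0 < L A T →
  (∀ i, L (B i) T = 0) → (∀ i j, j ≠ i → L (B i) (V j) = 0) → (∀ i, L (B i) (V i) < 0) →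
  (∀ D : E d × ℝ, L D T = 0 → (∀ i, L D (V i) = 0) → D = 0) →
  ∃ i, L A (B i) ≤ 1 / 3

/-- [STAR] 80 lines. Let `l i` be the functional of the face `E_i = {t} ∪ {F j : j ≠ i}`,
`β i y = l i y - l i t`: zero on `E_i` and negative on the rest of `W`. In particular
`β i (F i) < 0` and `β i (F j) = 0` for `j ≠ i`, so the `d` linear functionals `l i` are a basis of
the dual space (they are independent: evaluate at `F i - t`) and the vectors `F i - t` are a basis.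
So `y - t = ∑ i, λ i y • (F i - t)` with `λ i y = β i y / β i (F i)`, for all `y`, and `λ i y ≥ 0`
for `y ∈ W`. Put `α y = 1 - ∑ i, λ i y`. Let `y ∈ W`, `y ≠ t`, `y ≠ F i` for all `i`. If
`α y ≥ 0`, then `y = (α y) t + ∑ i, λ i y • F i` is in the convex hull of `W \ {y}`,
contradiction. So `α y < 0`. Last statement: an affine function vanishing at `t` and all `F i` is
zero, as `F i - t` is a basis. -/
def S_STAR : Prop := ∀ (d : ℕ) (ι : Type) [Fintype ι] (W : Finset (E d)) (t : E d)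
  (F : ι → E d), Fintype.card ι = d → t ∈ W → (∀ i, F i ∈ W) → (∀ i, F i ≠ t) →
  Function.Injective F → (∀ v ∈ W, v ∉ convexHull ℝ ((W : Set (E d)) \ {v})) →
  (∀ i, IsFace W (insert t {y | ∃ j, j ≠ i ∧ y = F j})) →
  ∃ (α : E d →ᵃ[ℝ] ℝ) (β : ι → (E d →ᵃ[ℝ] ℝ)), 0 < α t ∧ (∀ i, α (F i) = 0) ∧
    (∀ y ∈ W, y ≠ t → (∀ i, y ≠ F i) → α y < 0) ∧ (∀ i, β i t = 0) ∧
    (∀ i j, j ≠ i → β i (F j) = 0) ∧
    (∀ i, ∀ y ∈ W, y ≠ t → (∀ j, j ≠ i → y ≠ F j) → β i y < 0) ∧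
    ∀ φ : E d →ᵃ[ℝ] ℝ, φ t = 0 → (∀ i, φ (F i) = 0) → φ = 0

/-- [ALIVE] 100 lines, from `S_STAR` and `S_RIDGE`. Every affine functional `φ` is
`φ y = L A (lift c r y)` with `A = (r • u, -φ c)`, `u` the gradient of `φ`, and every Lorentz vector
gives an affine functional in this way. Let `A'`, `B' i` be the vectors of `α`, `β i` and
`T = lift t`, `V i = lift (F i)`. `L T T = 0`, `L (V i) (V i) ≤ 0`, `L T (V i) < 0` (the points
`t ≠ F i` are in the unit ball, `t` on the sphere) and `L (V i) (V j) < 0` for `i ≠ j` (unless one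
of them is the same point of the sphere). `A'` is orthogonal to `V i + V j`, which is timelike,
and `A' ≠ 0`, so `L A' A' > 0`: `A = A' / √(L A' A')`; `B' i` is orthogonal to the timelike vector
`T + V j` (`j ≠ i`), so `L (B' i) (B' i) > 0`: `B i = B' i / √..`. Apply `S_RIDGE`. -/
def S_ALIVE : Prop := ∀ (d : ℕ) (ι : Type) [Fintype ι] (W : Finset (E d)) (t : E d)
  (F : ι → E d) (c : E d) (r : ℝ), 4 ≤ d → Fintype.card ι = d → t ∈ W → (∀ i, F i ∈ W) →
  (∀ i, F i ≠ t) → Function.Injective F →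
  (∀ v ∈ W, v ∉ convexHull ℝ ((W : Set (E d)) \ {v})) →
  (∀ i, IsFace W (insert t {y | ∃ j, j ≠ i ∧ y = F j})) →
  0 < r → dist t c = r → (∀ i, dist (F i) c ≤ r) →
  ∃ (i : ι) (A B : E d × ℝ), L A A = 1 ∧ L B B = 1 ∧ L A B ≤ 1 / 3 ∧
    (∀ j, L A (lift c r (F j)) = 0) ∧ (∀ j, j ≠ i → L B (lift c r (F j)) = 0) ∧
    (∀ y ∈ W, y ≠ t → (∀ j, y ≠ F j) → L A (lift c r y) < 0) ∧
    (∀ y ∈ W, y ≠ t → (∀ j, j ≠ i → y ≠ F j) → L B (lift c r y) < 0)

/-- [LIN] 40 lines, from `S_STAR` (or directly): in a star the points `F i` are affinely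
independent, so the lifted vectors are linearly independent: if `∑ s i • lift (F i) = 0` then
`∑ s i = 0` and `∑ s i • (F i - t) = 0`; apply `β i`. -/
def S_LIN : Prop := ∀ (d : ℕ) (ι : Type) [Fintype ι] (W : Finset (E d)) (t : E d)
  (F : ι → E d) (c : E d) (r : ℝ), t ∈ W → (∀ i, F i ∈ W) →
  (∀ i, F i ≠ t) → Function.Injective F → 0 < r →
  (∀ i, IsFace W (insert t {y | ∃ j, j ≠ i ∧ y = F j})) →
  LinearIndependent ℝ (fun i => lift c r (F i))

/-- [COUNT] 150 lines, from `S_ALIVE`, `S_LIN`, `S_CONE`, with the same constant `K` as there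
(`d = 2 p`). For `I ∈ 𝒜` apply `S_ALIVE` with `ι = {a : Fin k × Bool // a.1 ∈ I}` (it has `2 p`
elements), `F a = x a`, `t = t I`: it gives `a I` with `(a I).1 ∈ I` and `A I`, `B I`. Put
`J I = I.erase (a I).1`, a set with `p - 1` elements, and let `X I = x ((a I).1, !(a I).2)` be the
other point of the removed pair. For every `J` with `p - 1` elements at most `K` of the `I ∈ 𝒜`
have `J I = J`: they are determined by the index `(a I).1 ∉ J`, so the `X I` are distinct points;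
apply `S_CONE` with `g` the vectors `lift (x c)`, `c.1 ∈ J` (there are `2 (p - 1) = d - 2`, linearly
independent by `S_LIN` for one `I`; `Z` is the sum of two of them, `L Z Z < 0`), and with `A I`,
`B I`, `lift (X I)`.  For `I ≠ I'` with the same `J` the point `X I'` is not in `F_I` and not `t I`,
so `L (A I) (lift (X I')) < 0` and `L (B I) (lift (X I')) < 0`; `X I` is in `F_I \ {x (a I)}`.
Finally sum over `J`. -/
def S_COUNT : Prop := ∃ K : ℕ, ∀ (p k : ℕ) (W : Finset (E (2 * p))) (x : Fin k × Bool → E (2 * p))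
  (t : Finset (Fin k) → E (2 * p)) (c : E (2 * p)) (r : ℝ) (𝒜 : Finset (Finset (Fin k))),
  2 ≤ p → Conf p k W x t → 0 < r →
  (∀ I ∈ 𝒜, I.card = p ∧ dist (t I) c = r ∧ ∀ a : Fin k × Bool, a.1 ∈ I → dist (x a) c ≤ r) →
  𝒜.card ≤ K * k.choose (p - 1)

/-- [EDGE] 40 lines. The edge `{x a, t I}` is the intersection of the faces `E_c`, `c ≠ a`,
`c.1 ∈ I` (`E_c` = the face of `Conf.face` for `c`); sum their functionals. (There is such a `c`
as `p ≥ 2`, or even `p ≥ 1`.) -/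
def S_EDGE : Prop := ∀ (d p k : ℕ) (W : Finset (E d)) (x : Fin k × Bool → E d)
  (t : Finset (Fin k) → E d), 2 ≤ p → Conf p k W x t → ∀ I : Finset (Fin k), I.card = p →
  ∀ a : Fin k × Bool, a.1 ∈ I → IsFace W {x a, t I}

/-- [TRANS] 40 lines: images of faces. -/
def S_TRANS : Prop := ∀ (d p k : ℕ) (V W : Finset (E d)) (f : E d → E d)
  (x : Fin k × Bool → E d) (t : Finset (Fin k) → E d), Realizes V W f → Conf p k V x t →
  Conf p k W (fun a => f (x a)) (fun I => f (t I))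

/-! ### existence of the polytope -/

/-- general position -/
def GenPos {d : ℕ} (V : Finset (E d)) : Prop :=
  ∀ S : Finset (E d), S ⊆ V → S.card ≤ d + 1 → AffineIndependent ℝ (Subtype.val : S → E d)

/-- [SIMP] 40 lines. `d + 1` affinely independent points span. A face `A ≠ V` is in a hyperplane
`l = max` with `l ≠ 0`, so it cannot contain `d + 1` affinely independent points; hence it has at
most `d` points. -/
def S_SIMP : Prop := ∀ (d : ℕ) (V : Finset (E d)), d + 1 ≤ V.card → GenPos V →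
  affineSpan ℝ (V : Set (E d)) = ⊤ ∧
  ∀ A : Set (E d), IsFace V A → A ≠ (V : Set (E d)) →
    AffineIndependent ℝ (Subtype.val : A → E d)

/-- [GEN] 80 lines. Induction on `κ` (as a `Finset` or `Fin n`): a new point `s` in the open set
`U` keeps general position if it is not in the affine span of any subset with at most `d` elements of
the points chosen before; these are finitely many proper affine subspaces (of measure zero,
`MeasureTheory.Measure.addHaar_affineSubspace`), and a nonempty open set has positive measure. -/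
def S_GEN : Prop := ∀ (d : ℕ) (κ : Type) [Fintype κ] (X : Finset (E d)) (U : κ → Set (E d)),
  1 ≤ d → GenPos X → (∀ I, IsOpen (U I)) → (∀ I, (U I).Nonempty) →
  ∃ t : κ → E d, (∀ I, t I ∈ U I) ∧ Function.Injective t ∧ (∀ I, t I ∉ X) ∧
    ∀ V : Finset (E d), (∀ y, y ∈ V ↔ (y ∈ X ∨ ∃ I, y = t I)) → GenPos V

/-- [STACK] 150 lines. `ι ≃ Fin d`. Fix `I`. The `d` points `F I i` are affinely independent and
`a I ≠ 0` vanishes on them, so they span the hyperplane `a I = 0`. For `i : ι` let `m i` be an affine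
functional with `m i (F I i) = 1` and `m i (F I j) = 0` for `j ≠ i` (it exists by affine
independence).  At the centroid `c_I` of the `F I i` we have `m i = 1/d`, `a I = 0`, and
`a I' (c_I) < 0` for `I' ≠ I` (some `F I i` is not in `F I'`). Let `c₀ > 0` be such that
`a I y ≤ -c₀` for all `I` and `y ∈ X` not in `F I` and `a I' (c_I) < -c₀` for `I' ≠ I`, and let `M`
be a bound for all `|m i y|` (for all `I, i`) for `y` in a large ball containing `X` and the `c_I`.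
Let `ε > 0` with `ε M < c₀ / (2 d)`, `U I` = the set of the points `s` of the large open ball with
`0 < a I s < ε`, `m i s > 1/(2d)` for all `i` and `a I' s < -c₀` for all `I' ≠ I`: open, and
nonempty (points close to `c_I` with `a I > 0`).  For `t` with `t I ∈ U I` the functional
`φ y = (m i (t I)) a I y - (a I (t I)) m i y` vanishes at `t I` and at `F I j`, `j ≠ i`; at `F I i`
it is `-a I (t I) < 0`; at the other points `y` of `X` and at `t I'`, `I' ≠ I`, we have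
`a I y ≤ -c₀`, so `φ y ≤ -c₀/(2d) + ε M < 0`. So `φ` (its linear part) shows that
`{t I} ∪ {F I j : j ≠ i}` is a face. -/
def S_STACK : Prop := ∀ (d : ℕ) (ι κ : Type) [Fintype ι] [Fintype κ] (X : Finset (E d))
  (F : κ → ι → E d) (a : κ → (E d →ᵃ[ℝ] ℝ)), 1 ≤ d → Fintype.card ι = d →
  (∀ I i, F I i ∈ X) → (∀ I, AffineIndependent ℝ (F I)) → (∀ I i, a I (F I i) = 0) →
  (∀ I, ∃ z, a I z ≠ 0) → (∀ I, ∀ y ∈ X, (∀ i, y ≠ F I i) → a I y < 0) →
  (∀ I I', I ≠ I' → ∃ i, ∀ j, F I' i ≠ F I j) →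
  ∃ U : κ → Set (E d), (∀ I, IsOpen (U I)) ∧ (∀ I, (U I).Nonempty) ∧
    ∀ t : κ → E d, (∀ I, t I ∈ U I) → ∀ V : Finset (E d),
      (∀ y, y ∈ V ↔ (y ∈ X ∨ ∃ I, y = t I)) →
      ∀ I i, IsFace V (insert (t I) {y | ∃ j, j ≠ i ∧ y = F I j})

/-- [MOM] 80 lines. `x (j, b) = γ (2 j + b)` with the moment curve `γ s = (s, s^2, ..., s^(2p))`.
Any `2 p + 1` (or less) points of it are affinely independent (Vandermonde). For `I` take the
polynomial `q = -∏_{j ∈ I} (s - 2 j) (s - 2 j - 1)` of degree `2 p`; `a y = q_0 + ∑ q_(i+1) y_i`,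
so `a (γ s) = q s`.  For an integer `s` both factors `s - 2 j`, `s - 2 j - 1` have the same sign
unless one of them is zero. `a` is not constant as the coefficient of `s^(2p)` is `-1`. -/
def S_MOM : Prop := ∀ p k : ℕ, 1 ≤ p → ∃ x : Fin k × Bool → E (2 * p), Function.Injective x ∧
  (∀ X : Finset (E (2 * p)), (∀ y, y ∈ X ↔ ∃ c, y = x c) → GenPos X) ∧
  ∀ I : Finset (Fin k), I.card = p → ∃ a : E (2 * p) →ᵃ[ℝ] ℝ,
    (∀ c : Fin k × Bool, c.1 ∈ I → a (x c) = 0) ∧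
    (∀ c : Fin k × Bool, c.1 ∉ I → a (x c) < 0) ∧ ∃ z, a z ≠ 0

/-- [EX] 120 lines, from `S_SIMP`, `S_GEN`, `S_STACK`, `S_MOM`. `κ = {I // I.card = p}`,
`ι = Fin p × Bool` (with bijections onto `{a : Fin k × Bool // a.1 ∈ I}` for all `I`). A point `v` of
a face `A ≠ V` is not in the convex hull of `V \ {v}` when `A` is affinely independent: it would be
in the hull of `A \ {v}`. Every point of `V` is in one of our faces (`k ≥ p ≥ 2`). -/
def S_EX : Prop := ∀ p k : ℕ, 2 ≤ p → p < k → ∃ (V : Finset (E (2 * p)))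
  (x : Fin k × Bool → E (2 * p)) (t : Finset (Fin k) → E (2 * p)),
  Simplicial V ∧ Conf p k V x t ∧ V.card = 2 * k + k.choose p

end Pool.Agent.L7h31.IE
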