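import Pool.Agent.L7h31.IE.Stm

set_option autoImplicit false

namespace Pool.Agent.L7h31.IE

theorem s_LOG : S_LOG := by
  intro p hp
  have hp' : (2 : ℝ) ≤ p := by exact_mod_cast hp
  have h2p : ((2 * p : ℕ) : ℝ) = 2 * p := by push_cast; ring
  rw [h2p]
  have hpos : (0 : ℝ) < p := by linarith
  have h1 : 0 < 2 * (p : ℝ) - 1 := by linarith
  have hlog : 1 < Real.log (2 * p) := by
    have h4 : Real.log 4 ≤ Real.log (2 * p) := Real.log_le_log (by norm_num) (by linarith)
    have h5 : Real.log 4 = 2 * Real.log 2 := by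
      rw [show (4 : ℝ) = 2 ^ 2 by norm_num, Real.log_pow]; push_cast; ring
    have h6 := Real.log_two_gt_d9
    linarith
  rw [lt_div_iff₀ (by linarith)]
  have h3 : Real.log (2 * p) - Real.log (2 * p - 1) ≤ 1 / (2 * p - 1) := by
    rw [← Real.log_div (by linarith) (by linarith)]
    have h4 := Real.log_le_sub_one_of_pos (x := 2 * p / (2 * p - 1)) (by positivity)
    have h5 : 2 * (p : ℝ) / (2 * p - 1) - 1 = 1 / (2 * p - 1) := by
      field_simp; ring
    linarith
  have h6 : 1 / (2 * (p : ℝ) - 1) < 1 / p * 1 := by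
    rw [mul_one]
    apply one_div_lt_one_div_of_lt hpos
    linarith
  have h7 : 1 / (p : ℝ) * 1 < 1 / p * Real.log (2 * p) := by
    apply mul_lt_mul_of_pos_left hlog (by positivity)
  have : (1 - 1 / (p : ℝ)) * Real.log (2 * p) = Real.log (2 * p) - 1 / p * Real.log (2 * p) := by
    ring
  linarith

theorem s_TRANS : S_TRANS := by
  intro d p k V W f x t hR hC
  have hf : Set.InjOn f (V : Set (E d)) := hR.bij.injOn
  refine ⟨hR.vert, ?_, ?_, ?_, ?_, ?_, ?_, ?_⟩
  · intro a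
    exact hR.bij.mapsTo (hC.xmem a)
  · intro I hI
    exact hR.bij.mapsTo (hC.tmem I hI)
  · intro a b hab
    exact hC.xinj (hf (hC.xmem a) (hC.xmem b) hab)
  · intro I hI a h
    exact hC.txne I hI a (hf (hC.tmem I hI) (hC.xmem a) h)
  · intro I J hI hJ h
    exact hC.tinj I J hI hJ (hf (hC.tmem I hI) (hC.tmem J hJ) h)
  · intro v hv
    obtain ⟨w, hw, rfl⟩ := hR.bij.surjOn hv
    rcases hC.all w hw with ⟨a, rfl⟩ | ⟨I, hI, rfl⟩
    · exact Or.inl ⟨a, rfl⟩
    · exact Or.inr ⟨I, hI, rfl⟩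
  · intro I hI a ha
    have h1 := hC.face I hI a ha
    have hsub : (insert (t I) {y | ∃ c : Fin k × Bool, c.1 ∈ I ∧ c ≠ a ∧ y = x c} : Set (E d)) ⊆
        (V : Set (E d)) := by
      intro y hy
      rcases hy with rfl | ⟨c, _, _, rfl⟩
      · exact hC.tmem I hI
      · exact hC.xmem c
    have h2 := (hR.face _ hsub).1 h1
    convert h2 using 1
    ext y
    constructor
    · rintro (rfl | ⟨c, h1, h2, rfl⟩)
      · exact ⟨t I, Set.mem_insert _ _, rfl⟩
      · exact ⟨x c, Or.inr ⟨c, h1, h2, rfl⟩, rfl⟩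
    · rintro ⟨z, (rfl | ⟨c, h1, h2, rfl⟩), rfl⟩
      · exact Or.inl rfl
      · exact Or.inr ⟨c, h1, h2, rfl⟩

end Pool.Agent.L7h31.IE
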